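import Pool.Agent.J4H20.TP.Stm

/-! Project TP: residue degree and ramification at `q`. -/

set_option autoImplicit false

namespace Pool.Agent.J4H52.TP

open Polynomial NumberField IsDedekindDomain Pool.Agent.J4H20.TP

section Val

variable {K Γ : Type*} [Field K] [LinearOrderedCommGroupWithZero Γ] (V : Valuation K Γ)

theorem geo {x : K} (hx : V x < 1) {p : ℕ} (hp : V (p : K) = 1) : V ((1 + x) ^ p - 1) = V x := by
  have hy : V (1 + x) ≤ 1 := by
    refine V.map_add_le ?_ hx.le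
    rw [map_one]
  have hgeo : ∀ i : ℕ, (1 + x) ^ i - 1 = (∑ j ∈ Finset.range i, (1 + x) ^ j) * x := by
    intro i
    have := geom_sum_mul (1 + x) i
    rw [add_sub_cancel_left] at this
    rw [← this]
  have h1 : ∀ i : ℕ, V ((1 + x) ^ i - 1) < 1 := by
    intro i
    rw [hgeo, map_mul]
    refine lt_of_le_of_lt ?_ hx
    refine mul_le_of_le_one_left' ?_
    refine V.map_sum_le fun j _ => ?_
    rw [map_pow]
    exact pow_le_one' hy j
  have h2 : ∑ j ∈ Finset.range p, (1 + x) ^ j = (p : K) + ∑ j ∈ Finset.range p, ((1 + x) ^ j - 1) := by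
    rw [Finset.sum_sub_distrib, Finset.sum_const, Finset.card_range, nsmul_eq_mul, mul_one]
    ring
  have h3 : V (∑ j ∈ Finset.range p, (1 + x) ^ j) = 1 := by
    rw [h2, V.map_add_eq_of_lt_left, hp]
    rw [hp]
    exact V.map_sum_lt one_ne_zero fun j _ => h1 j
  rw [hgeo, map_mul, h3, one_mul]

theorem ev_le (hint : ∀ z : ℤ, V (z : K) ≤ 1) {θ : K} (hθ : 1 ≤ V θ) (r : ℤ[X]) (N : ℕ) (hN : 1 ≤ N)
    (hr : r.degree < N) : V (aeval θ r) ≤ V θ ^ (N - 1) := by
  have h0 : r.natDegree < N := by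
    rcases eq_or_ne r 0 with h | h
    · rw [h, natDegree_zero]
      omega
    · exact (natDegree_lt_iff_degree_lt h).2 hr
  rw [aeval_eq_sum_range' h0]
  refine V.map_sum_le fun i hi => ?_
  rw [Finset.mem_range] at hi
  rw [zsmul_eq_mul, map_mul, map_pow]
  calc V ((r.coeff i : ℤ) : K) * V θ ^ i ≤ 1 * V θ ^ (N - 1) :=
        mul_le_mul' (hint _) (pow_le_pow_right' hθ (by omega))
    _ = _ := one_mul _

theorem ev_le_one (hint : ∀ z : ℤ, V (z : K) ≤ 1) {θ : K} (hθ : V θ ≤ 1) (r : ℤ[X]) : V (aeval θ r) ≤ 1 := by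
  rw [aeval_eq_sum_range]
  refine V.map_sum_le fun i hi => ?_
  rw [zsmul_eq_mul, map_mul, map_pow]
  calc V ((r.coeff i : ℤ) : K) * V θ ^ i ≤ 1 * 1 := mul_le_mul' (hint _) (pow_le_one' hθ i)
    _ = _ := one_mul _

theorem ev_eq (hint : ∀ z : ℤ, V (z : K) ≤ 1) {θ : K} (hθ : 1 < V θ) {g : ℤ[X]} (hg : g.Monic) {e : ℕ} (he : 1 ≤ e)
    (hge : g.natDegree = e) : V (aeval θ g) = V θ ^ e := by
  have h1 : g = X ^ e + (g - X ^ e) := by ring
  have h2 : (g - X ^ e).degree < (e : WithBot ℕ) := by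
    have h3 : (g - X ^ e).degree < g.degree := by
      refine degree_sub_lt_left ?_ hg.ne_zero ?_
      · rw [degree_eq_natDegree hg.ne_zero, hge, degree_X_pow]
      · rw [hg.leadingCoeff, leadingCoeff_X_pow]
    rwa [degree_eq_natDegree hg.ne_zero, hge] at h3
  have h3 := ev_le V hint hθ.le (g - X ^ e) e he h2
  have h4 : aeval θ g = θ ^ e + aeval θ (g - X ^ e) := by
    rw [map_sub, map_pow, aeval_X]
    ring
  rw [h4, V.map_add_eq_of_lt_left, map_pow]
  rw [map_pow]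
  refine lt_of_le_of_lt h3 ?_
  exact pow_lt_pow_right₀ hθ (by omega)

theorem core (hint : ∀ z : ℤ, V (z : K) ≤ 1) {θ : K} {g r : ℤ[X]} {p e : ℕ} (hp : 2 ≤ p) (he : 1 ≤ e)
    (hg : g.Monic) (hge : g.natDegree = e) (hr : r.degree < ((p - 1) * e : ℕ)) {c M : K} (hc : V c = 1)
    (hM : V M < 1) (hM0 : V M ≠ 0) (hpV : V (p : K) = 1)
    (hrel : (M * aeval θ g + c) ^ p = M ^ p * (aeval θ g ^ p + aeval θ r)) :
    V M * V θ ^ e = 1 ∧ V (M * aeval θ g) = 1 ∧ V ((M * aeval θ g + c) ^ p - (M * aeval θ g) ^ p) < 1 := by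
  have hN : 1 ≤ (p - 1) * e := Nat.mul_pos (by omega) he
  -- theta is not integral
  have hθ : 1 < V θ := by
    by_contra hθ
    push Not at hθ
    have h1 := ev_le_one V hint hθ g
    have h2 := ev_le_one V hint hθ r
    have h3 : V (M * aeval θ g) < 1 := by
      rw [map_mul]
      exact mul_lt_one_of_lt_of_le hM h1
    have h4 : V (M ^ p * (aeval θ g ^ p + aeval θ r)) < 1 := by
      rw [map_mul, map_pow]
      refine mul_lt_one_of_lt_of_le (pow_lt_one' hM (by omega)) ?_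
      refine V.map_add_le ?_ h2
      rw [map_pow]
      exact pow_le_one' h1 _
    have h5 : V (M * aeval θ g + c) = 1 := by
      rw [V.map_add_eq_of_lt_right, hc]
      rw [hc]
      exact h3
    rw [← hrel, map_pow, h5, one_pow] at h4
    exact lt_irrefl _ h4
  have hθ0 : V θ ≠ 0 := (zero_lt_one.trans hθ).ne'
  have hG := ev_eq V hint hθ hg he hge
  have hR := ev_le V hint hθ.le r _ hN hr
  set z := M * aeval θ g with hz
  have hVz : V z = V M * V θ ^ e := by rw [hz, map_mul, hG]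
  have hdiff : (z + c) ^ p - z ^ p = M ^ p * aeval θ r := by
    rw [hrel, hz]
    ring
  -- the bound for the right hand side
  have hRHS : V (M ^ p * aeval θ r) * V θ ≤ V M * V z ^ (p - 1) := by
    rw [map_mul, map_pow]
    have h1 : V M ^ p * V (aeval θ r) * V θ ≤ V M ^ p * V θ ^ ((p - 1) * e - 1) * V θ :=
      mul_le_mul' (mul_le_mul' le_rfl hR) le_rfl
    refine h1.trans (le_of_eq ?_)
    rw [mul_assoc, ← pow_succ, Nat.sub_add_cancel hN, hVz, mul_pow, ← pow_mul, ← mul_assoc, ← pow_succ',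
      Nat.sub_add_cancel (by omega), mul_comm e]
  have hRHS2 : V (M ^ p * aeval θ r) < V z ^ (p - 1) ∨ V z = 0 := by
    by_cases h0 : V z = 0
    · exact Or.inr h0
    left
    by_contra hcon
    push Not at hcon
    have h1 : V z ^ (p - 1) * V θ ≤ V M * V z ^ (p - 1) := (mul_le_mul' hcon le_rfl).trans hRHS
    have h2 : V θ ≤ V M := by
      have h3 : V z ^ (p - 1) ≠ 0 := pow_ne_zero _ h0
      rw [mul_comm] at h1
      exact le_of_mul_le_mul_right h1 (zero_lt_iff.2 h3)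
    exact absurd (h2.trans_lt hM) (not_lt.2 hθ.le)
  have hz0 : V z ≠ 0 := by
    rw [hVz]
    exact mul_ne_zero hM0 (pow_ne_zero _ hθ0)
  have hRHS3 : V (M ^ p * aeval θ r) < V z ^ (p - 1) := hRHS2.resolve_right hz0
  have hz1 : V z = 1 := by
    rcases lt_trichotomy (V z) 1 with h | h | h
    · exfalso
      have h1 : V ((z + c) ^ p) = 1 := by
        rw [map_pow, V.map_add_eq_of_lt_right, hc, one_pow]
        rw [hc]
        exact h
      have h2 : V (z ^ p) < 1 := by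
        rw [map_pow]
        exact pow_lt_one' h (by omega)
      have h3 : V ((z + c) ^ p - z ^ p) = 1 := by
        rw [V.map_sub_eq_of_lt_left, h1]
        rw [h1]
        exact h2
      rw [hdiff] at h3
      rw [h3] at hRHS3
      exact absurd hRHS3 (not_lt.2 (pow_le_one' h.le _))
    · exact h
    · exfalso
      have hzne : z ≠ 0 := by
        intro h0
        rw [h0, map_zero] at hz0
        exact hz0 rfl
      have h1 : (z + c) ^ p - z ^ p = z ^ p * ((1 + c / z) ^ p - 1) := by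
        rw [mul_sub, ← mul_pow, mul_one]
        congr 2
        field_simp
      have hcz : V (c / z) = (V z)⁻¹ := by
        rw [map_div₀, hc, one_div]
      have h2 : V (c / z) < 1 := by
        rw [hcz]
        exact inv_lt_one_of_one_lt₀ h
      have h3 : V ((z + c) ^ p - z ^ p) = V z ^ (p - 1) := by
        rw [h1, map_mul, geo V h2 hpV, hcz, map_pow]
        obtain ⟨m, rfl⟩ : ∃ m, p = m + 1 := ⟨p - 1, by omega⟩
        rw [Nat.add_sub_cancel, pow_succ, mul_assoc, mul_inv_cancel₀ hz0, mul_one]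
      rw [hdiff] at h3
      exact absurd h3 hRHS3.ne
  refine ⟨by rw [← hVz, hz1], hz1, ?_⟩
  rw [hdiff]
  rwa [hz1, one_pow] at hRHS3

end Val

theorem nf {p e k : ℕ} (D : DatP p e k) (c M : ℤ) (q : ℕ) (K : Type) [Field K] [NumberField K] (θ : K)
    (hq : q.Prime) (hcM : IsCoprime c M) (hqM : (q : ℤ) ∣ M) (hqM2 : ¬ (q : ℤ) ^ 2 ∣ M) (hqp : q ≠ p)
    (hθ : aeval θ (HP p D.g D.r c M) = 0) :
    ∃ (P : Ideal (𝓞 K)) (E : ℕ), P.IsMaximal ∧ (∀ z : ℤ, (z : 𝓞 K) ∈ P → (q : ℤ) ∣ z) ∧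
      ((q : ℤ) : 𝓞 K) ∈ P ^ E ∧ e ∣ E ∧ 0 < E ∧
      ∃ a b : 𝓞 K, b ∉ P ∧ a ^ p - b ^ p ∈ P ∧ a - b ∉ P := by
  have hp := D.hp
  have hqP' : Prime (q : ℤ) := Nat.prime_iff_prime_int.mp hq
  have hqnu : ¬ IsUnit ((q : ℤ) : 𝓞 K) := by
    intro h
    have h2 : IsUnit (Algebra.norm ℤ ((q : ℤ) : 𝓞 K)) := h.map _
    have h3 : Algebra.norm ℤ ((q : ℤ) : 𝓞 K) = (q : ℤ) ^ Module.finrank ℤ (𝓞 K) := by
      have := Algebra.norm_algebraMap (S := 𝓞 K) (q : ℤ)
      simpa using this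
    rw [h3] at h2
    have h4 : Module.finrank ℤ (𝓞 K) ≠ 0 := by
      rw [RingOfIntegers.rank]
      exact Module.finrank_pos.ne'
    exact hqP'.not_isUnit ((isUnit_pow_iff h4).mp h2)
  obtain ⟨P, hPmax, hqP⟩ := exists_max_ideal_of_mem_nonunits hqnu
  have hint' : ∀ z : ℤ, (z : 𝓞 K) ∈ P → (q : ℤ) ∣ z := by
    intro z hz
    by_contra hh
    obtain ⟨c, d, hcd⟩ := (Irreducible.coprime_iff_not_dvd hqP'.irreducible).mpr hh
    apply hPmax.ne_top
    rw [Ideal.eq_top_iff_one]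
    have : (1 : 𝓞 K) = (c : 𝓞 K) * ((q : ℤ) : 𝓞 K) + (d : 𝓞 K) * (z : 𝓞 K) := by
      exact_mod_cast hcd.symm
    rw [this]
    exact P.add_mem (P.mul_mem_left _ hqP) (P.mul_mem_left _ hz)
  have hq0 : ((q : ℤ) : 𝓞 K) ≠ 0 := by
    exact_mod_cast hq.ne_zero
  have hPbot : P ≠ ⊥ := by
    rintro rfl
    rw [Ideal.mem_bot] at hqP
    exact hq0 hqP
  set v : HeightOneSpectrum (𝓞 K) := ⟨P, hPmax.isPrime, hPbot⟩ with hv
  set V := v.valuation K with hV
  have hcast : ∀ z : ℤ, (z : K) = algebraMap (𝓞 K) K (z : 𝓞 K) := fun z => by simp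
  have hint : ∀ z : ℤ, V (z : K) ≤ 1 := by
    intro z
    rw [hcast]
    exact v.valuation_le_one _
  have hone : ∀ z : ℤ, ¬ (q : ℤ) ∣ z → V (z : K) = 1 := by
    intro z hz
    rw [hcast]
    exact (HeightOneSpectrum.valuation_eq_one_iff_notMem v).2 fun h => hz (hint' z h)
  have hqV : V ((q : ℤ) : K) < 1 := by
    rw [hcast]
    exact (v.valuation_lt_one_iff_mem (K := K) _).2 hqP
  have hqc : ¬ (q : ℤ) ∣ c := by
    intro h
    exact hqP'.not_isUnit (hcM.isUnit_of_dvd' h hqM)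
  have hqp' : ¬ (q : ℤ) ∣ (p : ℤ) := by
    intro h
    rw [Int.natCast_dvd_natCast] at h
    exact hqp ((Nat.prime_dvd_prime_iff_eq hq hp).1 h)
  have hMq : V (M : K) = V ((q : ℤ) : K) := by
    obtain ⟨M', rfl⟩ := hqM
    have h1 : ¬ (q : ℤ) ∣ M' := by
      intro h
      exact hqM2 (by rw [pow_two]; exact mul_dvd_mul_left _ h)
    rw [Int.cast_mul, map_mul, hone M' h1, mul_one]
  have hMV : V (M : K) < 1 := by rw [hMq]; exact hqV
  have hq0K : ((q : ℤ) : K) ≠ 0 := by exact_mod_cast hq.ne_zero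
  have hMV0 : V (M : K) ≠ 0 := by
    rw [hMq, Valuation.ne_zero_iff]
    exact hq0K
  have hpV : V ((p : ℕ) : K) = 1 := by
    have := hone (p : ℤ) hqp'
    simpa using this
  have hrel : ((M : K) * aeval θ D.g + c) ^ p = (M : K) ^ p * (aeval θ D.g ^ p + aeval θ D.r) := by
    have h1 := hθ
    unfold HP at h1
    rw [map_sub, sub_eq_zero] at h1
    simpa using h1
  obtain ⟨h1, h2, h3⟩ := core V hint hp.two_le (by have := D.he; omega) D.hg D.hgn D.hr (hone c hqc) hMV hMV0 hpV hrel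
  -- ramification
  have hqval : V ((q : ℤ) : K) = v.intValuation ((q : ℤ) : 𝓞 K) := by
    rw [hcast]
    exact v.valuation_of_algebraMap _
  classical
  have hexp := v.intValuation_if_neg hq0
  set E : ℕ := (Associates.mk v.asIdeal).count (Associates.mk (Ideal.span {((q : ℤ) : 𝓞 K)} : Ideal (𝓞 K))).factors
    with hE
  have hE0 : 0 < E := by
    rcases Nat.eq_zero_or_pos E with h | h
    · exfalso
      rw [hqval, hexp, h, Nat.cast_zero, neg_zero, WithZero.exp_zero] at hqV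
      exact lt_irrefl _ hqV
    · exact h
  have hθ0 : V θ ≠ 0 := by
    intro h0
    rw [h0, zero_pow (by have := D.he; omega), mul_zero] at h1
    exact zero_ne_one h1
  have hEe : (e : ℤ) ∣ (E : ℤ) := by
    have h4 := congrArg WithZero.log h1
    rw [WithZero.log_mul hMV0 (pow_ne_zero _ hθ0), WithZero.log_pow, hMq, hqval, hexp, WithZero.log_exp,
      WithZero.log_one, nsmul_eq_mul] at h4
    exact ⟨WithZero.log (V θ), by linarith⟩
  -- the residue field
  obtain ⟨w, d, hwd⟩ := v.exists_primeCompl_mul_eq_of_integer (M * aeval θ D.g : K) h2.le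
  have hd : (d : 𝓞 K) ∉ P := d.2
  have hdV : V (algebraMap (𝓞 K) K (d : 𝓞 K)) = 1 := (HeightOneSpectrum.valuation_eq_one_iff_notMem v).2 hd
  refine ⟨P, E, hPmax, hint', ?_, by exact_mod_cast hEe, hE0, w + c * d, w, ?_, ?_, ?_⟩
  · have := (v.intValuation_le_pow_iff_mem ((q : ℤ) : 𝓞 K) E).1 hexp.le
    exact this
  · refine (HeightOneSpectrum.valuation_eq_one_iff_notMem (K := K) v).1 ?_
    rw [← hwd, map_mul, ← hV, h2, hdV, one_mul]
  · refine (v.valuation_lt_one_iff_mem (K := K) _).1 ?_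
    have h4 : algebraMap (𝓞 K) K ((w + c * d) ^ p - w ^ p) =
        (algebraMap (𝓞 K) K (d : 𝓞 K)) ^ p *
          (((M : K) * aeval θ D.g + c) ^ p - ((M : K) * aeval θ D.g) ^ p) := by
      rw [mul_sub, ← mul_pow, ← mul_pow, map_sub, map_pow, map_pow, map_add, map_mul, ← hcast, ← hwd]
      congr 2
      · ring
      · ring
    show V (algebraMap (𝓞 K) K ((w + c * d) ^ p - w ^ p)) < 1
    rw [h4, map_mul, map_pow, hdV, one_pow, one_mul]
    exact h3
  · rw [add_sub_cancel_left]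
    intro h
    rcases hPmax.isPrime.mem_or_mem h with h | h
    · exact hqc (hint' c h)
    · exact hd h

theorem t_DEG : S_DEG := by
  intro p e k D c M q K _ _ θ hq hcM hqM hqM2 hqp hord hθ
  obtain ⟨P, E, hPmax, hint', hqE, heE, hE0, a, b, hb, hab, hne⟩ := nf D c M q K θ hq hcM hqM hqM2 hqp hθ
  have hp := D.hp
  -- the norm
  have hnorm : Ideal.absNorm (P ^ E) ∣ q ^ Module.finrank ℚ K := by
    have h1 : Ideal.span {((q : ℤ) : 𝓞 K)} ≤ P ^ E := by
      rw [Ideal.span_singleton_le_iff_mem]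
      exact hqE
    have h2 := Ideal.absNorm_dvd_absNorm_of_le h1
    have h3 : Algebra.norm ℤ ((q : ℤ) : 𝓞 K) = (q : ℤ) ^ Module.finrank ℤ (𝓞 K) := by
      have := Algebra.norm_algebraMap (S := 𝓞 K) (q : ℤ)
      simpa using this
    rw [Ideal.absNorm_span_singleton, h3, RingOfIntegers.rank, Int.natAbs_pow, Int.natAbs_natCast] at h2
    exact h2
  rw [map_pow] at hnorm
  obtain ⟨f, hf, hPf⟩ := (Nat.dvd_prime_pow hq).1 ((dvd_pow_self _ hE0.ne').trans hnorm)
  rw [hPf, ← pow_mul, Nat.pow_dvd_pow_iff_le_right hq.one_lt] at hnorm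
  have hf0 : f ≠ 0 := by
    rintro rfl
    rw [pow_zero, Ideal.absNorm_eq_one_iff] at hPf
    exact hPmax.ne_top hPf
  -- an element of order `p`
  let _ : Field (𝓞 K ⧸ P) := Ideal.Quotient.field P
  have hb' : Ideal.Quotient.mk P b ≠ 0 := fun h => hb (Ideal.Quotient.eq_zero_iff_mem.1 h)
  have hab' : Ideal.Quotient.mk P a ^ p = Ideal.Quotient.mk P b ^ p := by
    rw [← map_pow, ← map_pow, Ideal.Quotient.eq]
    exact hab
  have hne' : Ideal.Quotient.mk P a ≠ Ideal.Quotient.mk P b := fun h => hne (Ideal.Quotient.eq.1 h)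
  set ζ : 𝓞 K ⧸ P := Ideal.Quotient.mk P a / Ideal.Quotient.mk P b with hζ
  have hζp : ζ ^ p = 1 := by
    rw [hζ, div_pow, hab', div_self (pow_ne_zero _ hb')]
  have hζ1 : ζ ≠ 1 := by
    intro h
    rw [hζ, div_eq_one_iff_eq hb'] at h
    exact hne' h
  have hζ0 : ζ ≠ 0 := by
    intro h
    rw [h, zero_pow hp.ne_zero] at hζp
    exact zero_ne_one hζp
  have hord2 : orderOf (Units.mk0 ζ hζ0) = p := by
    have := Fact.mk hp
    refine orderOf_eq_prime ?_ ?_
    · ext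
      simpa using hζp
    · intro h
      apply hζ1
      have := congrArg (Units.val) h
      simpa using this
  have hcard : Nat.card (𝓞 K ⧸ P) = q ^ f := by
    rw [← hPf, Ideal.absNorm_apply, Submodule.cardQuot_apply]
  have hfin : Finite (𝓞 K ⧸ P) := by
    refine Nat.finite_of_card_ne_zero ?_
    rw [hcard]
    exact pow_ne_zero _ hq.ne_zero
  have hdiv : p ∣ q ^ f - 1 := by
    have h1 := orderOf_dvd_natCard (Units.mk0 ζ hζ0)
    rw [hord2, Nat.card_units, hcard] at h1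
    exact h1
  have hpow : (q : ZMod p) ^ f = 1 := by
    have h1 : ((q ^ f - 1 : ℕ) : ZMod p) = 0 := (ZMod.natCast_eq_zero_iff _ _).2 hdiv
    rw [Nat.cast_sub (Nat.one_le_pow _ _ hq.pos), Nat.cast_pow, Nat.cast_one, sub_eq_zero] at h1
    exact h1
  have hpf : p - 1 ∣ f := by
    rw [← hord]
    exact orderOf_dvd_of_pow_eq_one hpow
  exact (Nat.mul_le_mul (Nat.le_of_dvd (Nat.pos_of_ne_zero hf0) hpf) (Nat.le_of_dvd hE0 heE)).trans hnorm

theorem t_DSC : S_DSC := by
  intro p e k D c M q K _ _ θ hq hcM hqM hqM2 hqp hθ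
  obtain ⟨P, E, hPmax, hint', hqE, heE, hE0, -⟩ := nf D c M q K θ hq hcM hqM hqM2 hqp hθ
  have hqP' : Prime (q : ℤ) := Nat.prime_iff_prime_int.mp hq
  have hE2 : 2 ≤ E := D.he.trans (Nat.le_of_dvd hE0 heE)
  have hq2 : ((q : ℤ) : 𝓞 K) ∈ P ^ 2 := Ideal.pow_le_pow_right hE2 hqE
  have hmax : (Ideal.span {(q : ℤ)}).IsMaximal :=
    PrincipalIdealRing.isMaximal_of_irreducible hqP'.irreducible
  have hPd : P ^ (2 - 1) ∣ differentIdeal ℤ (𝓞 K) := by
    refine pow_sub_one_dvd_differentIdeal ℤ (p := Ideal.span {(q : ℤ)}) P 2 ?_ ?_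
    · rw [Ne, Ideal.span_singleton_eq_bot]
      exact hqP'.ne_zero
    · rw [Ideal.map_span, Set.image_singleton, Ideal.dvd_span_singleton]
      simpa using hq2
  rw [show 2 - 1 = 1 by norm_num, pow_one] at hPd
  have h5 : Ideal.absNorm P ∣ (discr K).natAbs := by
    rw [← absNorm_differentIdeal K (𝓞 K)]
    exact map_dvd _ hPd
  have h6 : (q : ℤ) ∣ (Ideal.absNorm P : ℤ) := hint' _ (by exact_mod_cast Ideal.absNorm_mem P)
  have h7 : (Ideal.absNorm P : ℤ) ∣ discr K := Int.natCast_dvd.mpr h5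
  exact h6.trans h7

end Pool.Agent.J4H52.TP
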